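import Pool.Agent.Lib.helper21.Rootv

set_option autoImplicit false

namespace Pool.Agent.Results.MP_f3b8e9_an.Counter

open Set Pool.Agent.Lib.Helper21.Rootv

/-- A convex domain and a boundary problem with non-vanishing characteristic determinant for which
the root vectors are not dense in the common domain of the powers. -/
theorem result : ∃ (V : Set ℂ) (n : ℕ) (a : ℕ → ℂ → ℂ) (φ : Fin n → (ℂ → ℂ) → ℂ),
    IsOpen V ∧ Convex ℝ V ∧ (0 : ℂ) ∈ V ∧ 1 ≤ n ∧ (∀ j, DifferentiableOn ℂ (a j) V) ∧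
    (∀ k, CLF V (φ k)) ∧ (∃ l, DeltaNe V n a φ l) ∧
    ∃ f : ℂ → ℂ, DifferentiableOn ℂ f V ∧ (∀ (q : ℕ) (k : Fin n), φ k ((ell n a)^[q] f) = 0) ∧
      ¬ ∀ K ⊆ V, IsCompact K → ∀ ε : ℝ, 0 < ε →
        ∃ g ∈ Submodule.span ℂ {g | Root V n a φ g}, ∀ z ∈ K, ‖f z - g z‖ < ε := by
  have z0 : (0 : ℂ) ∈ U := by simp
  refine ⟨U, 4, 0, fun k => ψ k, oU, cU, z0, by norm_num, fun _ => differentiableOn_const 0,
    fun k => clf k, ⟨0, delta⟩, fun z => Complex.exp (Complex.I * Complex.log (z + 1)),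
    fun z hz => ((((hasDerivAt_id' z).add_const 1).clog (sl hz)).const_mul
      _).cexp.differentiableAt.differentiableWithinAt, fun q k => (e2 q k _).trans (dinf _), fun H => ?_⟩
  obtain ⟨g, hg, h⟩ := H {0} (by simp) isCompact_singleton 1 one_pos
  have : g 0 = 0 := by
    refine Submodule.span_induction (p := fun g _ => g 0 = 0) ?_ rfl
      (fun x y _ _ hx hy => by simp [hx, hy]) (fun c x _ hx => by simp [hx]) hg
    rintro g ⟨d, l, m, -, p, e⟩
    refine root m g d (fun j hj => ?_) e 0 z0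
    have := p (j / 4) (by omega) ⟨j % 4, Nat.mod_lt _ (by norm_num)⟩
    simpa only [e2, Nat.mod_add_div] using this
  simpa [this] using h 0 rfl

end Pool.Agent.Results.MP_f3b8e9_an.Counter
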